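import Pool.Agent.H3.LP.All

/-!
# Unbounded solutions near all motions with nearly constant, nearly equal distances

For all nearly equal masses: near every solution of the planar three-body problem whose mutual distances stay close
to one constant (Lagrange's equilateral relative equilibria, the elliptic Lagrange motions of small eccentricity and
every other relative periodic solution of this kind) there are solutions in which any prescribed body escapes.
-/

set_option autoImplicit false

open Complex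

namespace Pool.Agent.Results.MP_6e7c44_mp.LagrangeEscape

/-- Phase points of the three bodies in the plane `ℂ`: positions and velocities (product topology). -/
abbrev Ph := (Fin 3 → ℂ) × (Fin 3 → ℂ)

/-- Newtonian acceleration of body `a`: `∑_{b ≠ a} m_b (q_b - q_a) / |q_b - q_a|^3`. -/
noncomputable def acc (m : Fin 3 → ℝ) (q : Fin 3 → ℂ) (a : Fin 3) : ℂ :=
  ∑ b ∈ Finset.univ.erase a, ((m b / ‖q b - q a‖ ^ 3 : ℝ) : ℂ) * (q b - q a)

/-- The phase space in the centre of mass frame: no collisions, `∑ m_a q_a = 0`, `∑ m_a v_a = 0`. -/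
def phaseSpace (m : Fin 3 → ℝ) : Set Ph :=
  {z | (∀ a b, a ≠ b → z.1 a ≠ z.1 b) ∧ ∑ a, (m a : ℂ) * z.1 a = 0 ∧ ∑ a, (m a : ℂ) * z.2 a = 0}

/-- `x = (q, v)` is a solution of Newton's equations in the centre of mass frame which is defined for all times. -/
def IsSol (m : Fin 3 → ℝ) (x : ℝ → Ph) : Prop :=
  ∀ t, x t ∈ phaseSpace m ∧ HasDerivAt x ((x t).2, acc m (x t).1) t

/-- `x` is a solution in the centre of mass frame which is defined for all positive times and shortly before `0`:
on the time interval `(-s, ∞)` for some `s > 0`. (Every solution for all times is one.) -/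
def IsForwardSol (m : Fin 3 → ℝ) (x : ℝ → Ph) : Prop :=
  ∃ s : ℝ, 0 < s ∧ ∀ t, -s < t → x t ∈ phaseSpace m ∧ HasDerivAt x ((x t).2, acc m (x t).1) t

/-- The mutual distances are periodic functions of time. -/
def IsRelPeriodic (x : ℝ → Ph) : Prop :=
  ∃ T : ℝ, 0 < T ∧ ∀ t a b, ‖(x (t + T)).1 a - (x (t + T)).1 b‖ = ‖(x t).1 a - (x t).1 b‖

/-- Some initial condition in `U` is the initial condition of a solution which exists for all positive times and in
which the body `c` escapes: its distances from the other two bodies tend to infinity, while the distance of these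
two is at most `L` from some time on. -/
def HasEscape (m : Fin 3 → ℝ) (c : Fin 3) (U : Set Ph) (L : ℝ) : Prop :=
  ∃ y : ℝ → Ph, y 0 ∈ U ∧ IsForwardSol m y ∧ ∀ R : ℝ, ∃ t₀ : ℝ, ∀ t, t₀ ≤ t →
    (∀ a, a ≠ c → R ≤ ‖(y t).1 c - (y t).1 a‖) ∧ ∀ a b, a ≠ c → b ≠ c → ‖(y t).1 b - (y t).1 a‖ ≤ L

/-- `r` is a nondegenerate equilateral triangle. -/
def Equilateral (r : Fin 3 → ℂ) : Prop :=
  r 1 ≠ r 0 ∧ ‖r 2 - r 1‖ = ‖r 1 - r 0‖ ∧ ‖r 0 - r 2‖ = ‖r 1 - r 0‖

/-- The homographic motion with positions `z(t) r_a` and velocities `z'(t) r_a`. -/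
def homographic (r : Fin 3 → ℂ) (z z' : ℝ → ℂ) (t : ℝ) : Ph :=
  (fun a => z t * r a, fun a => z' t * r a)

/-- There is `η > 0` such that for all masses which differ from a third of the total mass `M` by less than `η M`:

* for every solution `x` on `[0, ∞)` whose mutual distances stay within `η ρ` of one constant `ρ > 0` (so for every
  such relative periodic solution) and for every body `c`, every neighbourhood of `x 0` contains initial conditions
  of a solution in which `c` escapes;
* this applies to the elliptic Lagrange solutions of all eccentricities `0 ≤ e ≤ η` and of every equilateral triangle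
  `r` (centre of mass `0`; `e = 0` gives the relative equilibria): for every `e < 1` there is a solution with
  positions `z(t) r_a` and `‖z‖` running over `[1 - e, 1 + e]`, it is relative periodic, and its mutual distances are
  `‖z‖` times the side of `r`. -/
theorem result : ∃ η : ℝ, 0 < η ∧ ∀ m : Fin 3 → ℝ, (∀ i, 0 < m i) →
    (∀ i, |m i - (m 0 + m 1 + m 2) / 3| < η * (m 0 + m 1 + m 2)) →
    (∀ (x : ℝ → Ph) (ρ : ℝ), 0 < ρ → IsForwardSol m x →
      (∀ t, 0 ≤ t → ∀ a b : Fin 3, a ≠ b → |‖(x t).1 b - (x t).1 a‖ - ρ| ≤ η * ρ) →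
      ∀ c : Fin 3, ∀ U ∈ nhds (x 0), HasEscape m c U (2 * ρ)) ∧
    ∀ r : Fin 3 → ℂ, Equilateral r → ∑ a, (m a : ℂ) * r a = 0 → ∀ e : ℝ, 0 ≤ e → e < 1 →
      ∃ z z' : ℝ → ℂ, IsSol m (homographic r z z') ∧ IsRelPeriodic (homographic r z z') ∧
        (∀ t, 1 - e ≤ ‖z t‖ ∧ ‖z t‖ ≤ 1 + e) ∧ (∃ t, ‖z t‖ = 1 - e) ∧ (∃ t, ‖z t‖ = 1 + e) ∧
        (e ≤ η → ∀ c : Fin 3, ∀ U ∈ nhds (homographic r z z' 0), HasEscape m c U (2 * ‖r 1 - r 0‖)) :=
  Pool.Agent.H3.LP.final

end Pool.Agent.Results.MP_6e7c44_mp.LagrangeEscape
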