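import Pool.Agent.H77.TU.All

/-!
# Unbounded solutions near all solutions which stay close to Euler's relative equilibria

There is a nonempty open cone of mass triples (`m₂ / (m₁ + m₂)` near `19/82`, `m₃ / (m₁ + m₂)` small) such that for
every collinear relative equilibrium of the planar three-body problem in which the body `2` is between `1` and `3` and
for every solution on `[0, ∞)` (in particular every relative periodic solution) whose mutual distances stay close to
those of the relative equilibrium, every neighbourhood of its initial conditions contains initial conditions of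
solutions which exist for all positive times and in which the third body escapes. The elliptic homographic solutions
of small eccentricity are such relative periodic solutions.
-/

set_option autoImplicit false

open Complex

namespace Pool.Agent.Results.MP_6e7c44_mp.NearEulerEquilibria

/-- Phase points of the three bodies in the plane `ℂ`: positions and velocities (product topology). -/
abbrev Ph := (Fin 3 → ℂ) × (Fin 3 → ℂ)

/-- Newtonian acceleration of body `a`: `∑_{b ≠ a} m_b (q_b - q_a) / |q_b - q_a|^3`. -/
noncomputable def acc (m : Fin 3 → ℝ) (q : Fin 3 → ℂ) (a : Fin 3) : ℂ :=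
  ∑ b ∈ Finset.univ.erase a, ((m b / ‖q b - q a‖ ^ 3 : ℝ) : ℂ) * (q b - q a)

/-- The phase space in the centre of mass frame: no collisions, `∑ m_a q_a = 0`, `∑ m_a v_a = 0`. -/
def phaseSpace (m : Fin 3 → ℝ) : Set Ph :=
  {z | (∀ a b, a ≠ b → z.1 a ≠ z.1 b) ∧ ∑ a, (m a : ℂ) * z.1 a = 0 ∧ ∑ a, (m a : ℂ) * z.2 a = 0}

/-- `x = (q, v)` is a solution of Newton's equations in the centre of mass frame which is defined for all times. -/
def IsSol (m : Fin 3 → ℝ) (x : ℝ → Ph) : Prop :=
  ∀ t, x t ∈ phaseSpace m ∧ HasDerivAt x ((x t).2, acc m (x t).1) t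

/-- `x` is a solution in the centre of mass frame on the time interval `[0, ∞)`: continuous there, differentiable with
Newton's equations for `t > 0`. (Every solution for all times is one.) -/
def IsSolOnRay (m : Fin 3 → ℝ) (x : ℝ → Ph) : Prop :=
  ContinuousOn x (Set.Ici 0) ∧ (∀ t, 0 ≤ t → x t ∈ phaseSpace m) ∧
    ∀ t, 0 < t → HasDerivAt x ((x t).2, acc m (x t).1) t

/-- `x` is a solution in the centre of mass frame which is defined for all positive times and shortly before `0`:
on the time interval `(-η, ∞)` for some `η > 0`. -/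
def IsForwardSol (m : Fin 3 → ℝ) (x : ℝ → Ph) : Prop :=
  ∃ η : ℝ, 0 < η ∧ ∀ t, -η < t → x t ∈ phaseSpace m ∧ HasDerivAt x ((x t).2, acc m (x t).1) t

/-- The mutual distances are periodic functions of time. -/
def IsRelPeriodic (x : ℝ → Ph) : Prop :=
  ∃ T : ℝ, 0 < T ∧ ∀ t a b, ‖(x (t + T)).1 a - (x (t + T)).1 b‖ = ‖(x t).1 a - (x t).1 b‖

/-- The collinear motion `q_a(t) = w e^{iωt} r_a` (with its velocities) which rotates rigidly with angular
velocity `ω`; its mutual distances are `‖w‖ |r_a - r_b|`. -/
noncomputable def euler (r : Fin 3 → ℝ) (w : ℂ) (ω : ℝ) (t : ℝ) : Ph :=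
  (fun i => w * cexp (I * ω * t) * r i, fun i => w * (I * ω) * cexp (I * ω * t) * r i)

/-- The position on the Kepler ellipse of eccentricity `e` (semimajor axis `1`, focus `0`) at the eccentric
anomaly `E`. -/
noncomputable def ell (e E : ℝ) : ℂ := ((Real.cos E - e : ℝ) : ℂ) + ((Real.sqrt (1 - e ^ 2) * Real.sin E : ℝ) : ℂ) * I

/-- `x` is the elliptic homographic motion of eccentricity `e` with the configuration and the mean motion of
`euler r w ω`: the positions are `w ell(e, A(t)) r_a` with Kepler's equation `A - e sin A = ω t`, and the velocities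
are the derivatives of the positions. -/
def IsElliptic (r : Fin 3 → ℝ) (w : ℂ) (ω e : ℝ) (x : ℝ → Ph) : Prop :=
  ∃ A : ℝ → ℝ, (∀ t, A t - e * Real.sin (A t) = ω * t) ∧ (∀ t i, (x t).1 i = w * ell e (A t) * r i) ∧
    ∀ t, HasDerivAt (fun s => (x s).1) (x t).2 t

/-- Some initial condition in `U` is the initial condition of a solution which exists for all positive times and in
which the distances of the third body (index `2`) from the other two tend to infinity, while the distance of these
two is finally at most `L`. -/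
def HasEscape (m : Fin 3 → ℝ) (U : Set Ph) (L : ℝ) : Prop :=
  ∃ y : ℝ → Ph, y 0 ∈ U ∧ IsForwardSol m y ∧
    ∀ R : ℝ, ∃ t₀ : ℝ, ∀ t, t₀ ≤ t → R ≤ ‖(y t).1 2 - (y t).1 0‖ ∧ R ≤ ‖(y t).1 2 - (y t).1 1‖ ∧
      ‖(y t).1 1 - (y t).1 0‖ ≤ L

/-- There is `η > 0` such that for all masses with `m₃ < η (m₁ + m₂)` and `|m₁ - 63/82 (m₁ + m₂)| < η (m₁ + m₂)` there
are collinear relative equilibria with body `2` between the bodies `1` and `3`, and for each of them (all sizes,
positions and angular velocities):

* for every solution on `[0, ∞)` whose mutual distances differ from those of the relative equilibrium by a factor in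
  `[1 - η, 1 + η]` at all times (so for every such relative periodic solution), every neighbourhood of its initial
  conditions contains initial conditions of an unbounded solution (the third body escapes);
* this applies to the elliptic homographic solutions of the same configuration with all eccentricities
  `0 ≤ e ≤ η`, which exist, are relative periodic, and whose mutual distances vary between `1 - e` and `1 + e` times
  those of the relative equilibrium. -/
theorem result : ∃ η : ℝ, 0 < η ∧ ∀ m : Fin 3 → ℝ, (∀ i, 0 < m i) →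
    m 2 < η * (m 0 + m 1) → |m 0 - 63 / 82 * (m 0 + m 1)| < η * (m 0 + m 1) →
    (∃ r : Fin 3 → ℝ, r 0 < r 1 ∧ r 1 < r 2 ∧ IsSol m (euler r 1 1)) ∧
    ∀ (r : Fin 3 → ℝ) (w : ℂ) (ω : ℝ), r 0 < r 1 → r 1 < r 2 → w ≠ 0 → ω ≠ 0 → IsSol m (euler r w ω) →
      (∀ x : ℝ → Ph, IsSolOnRay m x →
        (∀ t a b, 0 ≤ t → abs (‖(x t).1 a - (x t).1 b‖ - ‖w‖ * |r a - r b|) ≤ η * (‖w‖ * |r a - r b|)) →
        ∀ U ∈ nhds (x 0), HasEscape m U (2 * (‖w‖ * (r 1 - r 0)))) ∧
      ∀ e : ℝ, 0 ≤ e → e ≤ η → ∃ x : ℝ → Ph, IsElliptic r w ω e x ∧ IsSol m x ∧ IsRelPeriodic x ∧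
        (∀ a b, a ≠ b → ∃ t s, ‖(x t).1 a - (x t).1 b‖ = (1 - e) * (‖w‖ * |r a - r b|) ∧
          ‖(x s).1 a - (x s).1 b‖ = (1 + e) * (‖w‖ * |r a - r b|)) ∧
        ∀ U ∈ nhds (x 0), HasEscape m U (2 * (‖w‖ * (r 1 - r 0))) :=
  Pool.Agent.H77.TU.final

end Pool.Agent.Results.MP_6e7c44_mp.NearEulerEquilibria
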